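import Pool.Agent.H75.SQ.Basic

set_option autoImplicit false

open Finset Matrix

namespace Pool.Agent.H61.SQ.TEN

open Pool.Agent.H75.SQ

/-- the entropy of a function of one clause -/
private noncomputable def en {γ : Type} [Fintype γ] (w x : γ → ℝ) : ℝ :=
  ∑ C, w C * (x C * Real.log (x C)) - (∑ C, w C * x C) * Real.log (∑ C, w C * x C)

private theorem mul_log_ge (a b : ℝ) (ha : 0 < a) (hb : 0 < b) :
    a - b ≤ a * Real.log a - a * Real.log b := by
  have h1 : Real.log (b / a) ≤ b / a - 1 := Real.log_le_sub_one_of_pos (by positivity)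
  rw [Real.log_div hb.ne' ha.ne'] at h1
  have h2 := mul_le_mul_of_nonneg_left h1 ha.le
  have h3 : a * (b / a - 1) = b - a := by field_simp
  rw [h3] at h2
  linarith

private theorem sum_pos_of {ι : Type} [Fintype ι] (p x : ι → ℝ) (hp : ∀ i, 0 ≤ p i)
    (hp1 : ∑ i, p i = 1) (hx : ∀ i, 0 < x i) : 0 < ∑ i, p i * x i := by
  have h0 : ∀ i ∈ (Finset.univ : Finset ι), 0 ≤ p i * x i :=
    fun i _ => mul_nonneg (hp i) (hx i).le
  rcases (Finset.sum_nonneg h0).lt_or_eq with h | h
  · exact h
  · exfalso
    have h1 := (Finset.sum_eq_zero_iff_of_nonneg h0).1 h.symm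
    have h2 : ∑ i, p i = 0 := by
      refine Finset.sum_eq_zero fun i hi => ?_
      rcases mul_eq_zero.1 (h1 i hi) with h3 | h3
      · exact h3
      · exact absurd h3 (hx i).ne'
    rw [hp1] at h2
    exact one_ne_zero h2

private theorem key {γ ι : Type} [Fintype γ] [Fintype ι] (w : γ → ℝ) (hw : Pw w) (p : ι → ℝ)
    (hp : ∀ i, 0 ≤ p i) (hp1 : ∑ i, p i = 1) (x : ι → γ → ℝ) (hx : ∀ i C, 0 < x i C) :
    en w (fun C => ∑ i, p i * x i C) ≤ ∑ i, p i * en w (x i) := by
  have hg : ∀ C, 0 < ∑ i, p i * x i C := fun C => sum_pos_of p _ hp hp1 fun i => hx i C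
  have hS : 0 < ∑ C, w C * ∑ i, p i * x i C := sum_pos_of w _ hw.1 hw.2 hg
  obtain ⟨g, hgd⟩ : ∃ g : γ → ℝ, g = fun C => ∑ i, p i * x i C := ⟨_, rfl⟩
  obtain ⟨S, hSd⟩ : ∃ S : ℝ, S = ∑ C, w C * g C := ⟨_, rfl⟩
  have hg' : ∀ C, 0 < g C := by
    intro C
    rw [hgd]
    exact hg C
  have hS' : 0 < S := by
    rw [hSd, hgd]
    exact hS
  rw [← hgd]
  have h1 : ∀ i, ∑ C, w C * (x i C * Real.log (g C / S)) ≤ en w (x i) := by
    intro i
    have hs : 0 < ∑ C, w C * x i C := sum_pos_of w _ hw.1 hw.2 (hx i)
    obtain ⟨s, hsd⟩ : ∃ s : ℝ, s = ∑ C, w C * x i C := ⟨_, rfl⟩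
    unfold en
    rw [← hsd]
    rw [← hsd] at hs
    have h2 : ∀ C, w C * (x i C - s * (g C / S)) ≤
        w C * (x i C * Real.log (x i C)) - (w C * x i C) * Real.log s -
          w C * (x i C * Real.log (g C / S)) := by
      intro C
      have hu : 0 < g C / S := div_pos (hg' C) hS'
      have h3 := mul_log_ge (x i C) (s * (g C / S)) (hx i C) (mul_pos hs hu)
      rw [Real.log_mul hs.ne' hu.ne'] at h3
      have h4 := mul_le_mul_of_nonneg_left h3 (hw.1 C)
      calc w C * (x i C - s * (g C / S)) ≤ _ := h4
        _ = _ := by ring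
    have h5 := Finset.sum_le_sum fun C (_ : C ∈ (Finset.univ : Finset γ)) => h2 C
    have h6 : ∑ C, w C * (x i C - s * (g C / S)) = 0 := by
      have e : ∀ C, w C * (x i C - s * (g C / S)) = w C * x i C - (s / S) * (w C * g C) := by
        intro C
        field_simp
      simp only [e]
      rw [Finset.sum_sub_distrib, ← Finset.mul_sum, ← hsd, ← hSd]
      field_simp
      ring
    rw [h6, Finset.sum_sub_distrib, Finset.sum_sub_distrib, ← Finset.sum_mul, ← hsd] at h5
    linarith
  calc en w g = ∑ i, p i * ∑ C, w C * (x i C * Real.log (g C / S)) := by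
        unfold en
        rw [← hSd]
        have e1 : ∑ i, p i * ∑ C, w C * (x i C * Real.log (g C / S)) =
            ∑ C, w C * (g C * Real.log (g C / S)) := by
          simp only [Finset.mul_sum]
          rw [Finset.sum_comm]
          refine Finset.sum_congr rfl fun C _ => ?_
          have e2 : g C = ∑ i, p i * x i C := by rw [hgd]
          calc _ = w C * ((∑ i, p i * x i C) * Real.log (g C / S)) := by
                rw [Finset.sum_mul, Finset.mul_sum]
                refine Finset.sum_congr rfl fun i _ => ?_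
                ring
            _ = _ := by rw [← e2]
        rw [e1]
        have e3 : ∀ C, w C * (g C * Real.log (g C / S)) =
            w C * (g C * Real.log (g C)) - (w C * g C) * Real.log S := by
          intro C
          rw [Real.log_div (hg' C).ne' hS'.ne']
          ring
        simp only [e3]
        rw [Finset.sum_sub_distrib, ← Finset.sum_mul, ← hSd]
    _ ≤ _ := Finset.sum_le_sum fun i _ => mul_le_mul_of_nonneg_left (h1 i) (hp i)

private theorem main {γ : Type} [Fintype γ] [DecidableEq γ] (w : γ → ℝ) (hw : Pw w) :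
    ∀ (m : ℕ) (f : (Fin m → γ) → ℝ), (∀ F, 0 < f F) →
    EF w m (fun F => f F * Real.log (f F)) - EF w m f * Real.log (EF w m f) ≤
      ∑ i, EF w m (fun F => en w fun C => f (Function.update F i C)) := by
  intro m
  induction m with
  | zero =>
    intro f _
    have h : ∀ g : (Fin 0 → γ) → ℝ, EF w 0 g = g default := by
      intro g
      unfold EF
      simp
    rw [h, h]
    simp
  | succ m ih =>
    intro f hf
    rw [EF_succ, EF_succ, Fin.sum_univ_succ]
    have h0 : EF w (m + 1) (fun F => en w fun C => f (Function.update F 0 C)) =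
        EF w m (fun F => en w fun C => f (Fin.cons C F)) := by
      rw [EF_succ]
      simp only [Fin.update_cons_zero]
      rw [← Finset.sum_mul, hw.2, one_mul]
    have h1 : ∀ i : Fin m, EF w (m + 1) (fun F => en w fun C => f (Function.update F i.succ C)) =
        ∑ C, w C * EF w m (fun F => en w fun C' => f (Fin.cons C (Function.update F i C'))) := by
      intro i
      rw [EF_succ]
      simp only [Fin.cons_update]
    simp only [h1]
    rw [h0, Finset.sum_comm]
    have h2 : ∀ C, EF w m (fun F => f (Fin.cons C F) * Real.log (f (Fin.cons C F))) -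
        EF w m (fun F => f (Fin.cons C F)) * Real.log (EF w m fun F => f (Fin.cons C F)) ≤
        ∑ i, EF w m (fun F => en w fun C' => f (Fin.cons C (Function.update F i C'))) :=
      fun C => ih (fun F => f (Fin.cons C F)) fun F => hf _
    have h3 : en w (fun C => EF w m fun F => f (Fin.cons C F)) ≤
        EF w m (fun F => en w fun C => f (Fin.cons C F)) :=
      key w hw (fun F : Fin m → γ => ∏ j, w (F j)) (fun F => prod_nonneg' w hw.1 m F)
        (sum_prod w hw m) (fun F C => f (Fin.cons C F)) fun F C => hf _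
    have h4 := Finset.sum_le_sum fun C (_ : C ∈ (Finset.univ : Finset γ)) =>
      mul_le_mul_of_nonneg_left (h2 C) (hw.1 C)
    simp only [mul_sub, Finset.sum_sub_distrib, Finset.mul_sum] at h4
    unfold en at h3
    have h5 : ∑ C, w C * ((EF w m fun F => f (Fin.cons C F)) *
        Real.log (EF w m fun F => f (Fin.cons C F))) =
        ∑ C, w C * ((EF w m fun F => f (Fin.cons C F)) *
        Real.log (EF w m fun F => f (Fin.cons C F))) := rfl
    unfold en
    unfold en at h4
    linarith

theorem pf_TEN : T_TEN := by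
  intro γ _ _ w hw m f hf
  exact main w hw m f hf

end Pool.Agent.H61.SQ.TEN
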